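import Pool.Agent.MP_2b113a_an.H50.RigidB

/-!
The stable Bernstein theorem `RigidStmt`.
-/

namespace Pool.Agent.MP_2b113a_an.H50

open MeasureTheory ProbabilityTheory Filter Topology
open scoped ENNReal NNReal
open Pool.Agent.MP_2b113a_an.H83

lemma qd_moment {s₀ : ℝ≥0} (h0 : s₀ ≠ 0) (π : Measure (ℝ × ℝ)) [IsProbabilityMeasure π] :
    ∫⁻ w, ENNReal.ofReal (qd s₀ π w) * ENNReal.ofReal (w.1 ^ 2 + w.2 ^ 2) =
      ∫⁻ u, ENNReal.ofReal (u.1 ^ 2 + u.2 ^ 2) ∂π + ENNReal.ofReal (2 * s₀) := by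
  rw [← smooth_eq h0 π (fun w => ENNReal.ofReal (w.1 ^ 2 + w.2 ^ 2)) (by fun_prop)]
  have : ∀ z : ℝ × ℝ, ∫⁻ ζ, ENNReal.ofReal ((z + ζ).1 ^ 2 + (z + ζ).2 ^ 2) ∂(N2 s₀ s₀) =
      ENNReal.ofReal (z.1 ^ 2 + z.2 ^ 2) + ENNReal.ofReal (2 * s₀) := by
    intro z
    have := mom2 z.1 z.2 0 0 s₀
    simp only [add_zero] at this
    rw [← ENNReal.ofReal_add (by positivity) (by positivity), ← this]
    rfl
  simp only [this]
  rw [lintegral_add_right _ measurable_const]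
  simp

lemma limit_gauss {c s : ℝ} (hcs : c ^ 2 + s ^ 2 = 1) (hc : c ≠ 0) (hs : s ≠ 0) {s₀ : ℝ≥0}
    (h0 : s₀ ≠ 0) {πs : ℕ → ProbabilityMeasure (ℝ × ℝ)} {π : ProbabilityMeasure (ℝ × ℝ)}
    (h : Tendsto πs atTop (𝓝 π)) (δ : ℕ → ℝ) (hδ : Tendsto δ atTop (𝓝 0))
    (hD : ∀ n, Dep (πs n) (δ n))
    (hD' : ∀ n, Dep ((πs n : Measure (ℝ × ℝ)).map (rot c s)) (δ n)) :
    ∃ (m : ℝ × ℝ) (v : ℝ≥0), v ≠ 0 ∧
      ∀ w, qd s₀ π w = gaussianPDFReal m.1 v w.1 * gaussianPDFReal m.2 v w.2 := by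
  have hpos : ∀ w, 0 < qd s₀ π w := qd_pos h0 π
  have h' := ProbabilityMeasure.tendsto_map_of_tendsto_of_continuous πs π h (rot_cont c s)
  have R1 := rank_one h h0 δ hδ hD
  have R2 := rank_one h' h0 δ hδ (fun n => by simpa using hD' n)
  obtain ⟨A, β₁, β₂, γ, hL⟩ := func_eq c s hc hs (fun w => Real.log (qd s₀ π w))
    ((qd_cont s₀ π).log fun w => (hpos w).ne') (by
      intro x y x' y'
      rw [← Real.log_mul (hpos _).ne' (hpos _).ne', ← Real.log_mul (hpos _).ne' (hpos _).ne',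
        R1]) (by
      intro x y a b
      rw [← Real.log_mul (hpos _).ne' (hpos _).ne', ← Real.log_mul (hpos _).ne' (hpos _).ne']
      congr 1
      have e1 : rot c s (x + c * a + s * b, y + -(s * a) + c * b) =
          (c * x - s * y + a, s * x + c * y + b) := by
        unfold rot
        ext
        · simp only; linear_combination a * hcs
        · simp only; linear_combination b * hcs
      have e2 : rot c s (x, y) = (c * x - s * y, s * x + c * y) := rfl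
      have e3 : rot c s (x + c * a, y + -(s * a)) = (c * x - s * y + a, s * x + c * y) := by
        unfold rot
        ext
        · simp only; linear_combination a * hcs
        · simp only; ring
      have e4 : rot c s (x + s * b, y + c * b) = (c * x - s * y, s * x + c * y + b) := by
        unfold rot
        ext
        · simp only; ring
        · simp only; linear_combination b * hcs
      rw [← qd_rot hcs s₀ π, ← qd_rot hcs s₀ π (x, y), ← qd_rot hcs s₀ π (x + c * a, _),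
        ← qd_rot hcs s₀ π (x + s * b, _), e1, e2, e3, e4]
      simpa using R2 (c * x - s * y + a) (s * x + c * y + b) (c * x - s * y) (s * x + c * y))
  exact gauss_of_exp (qd s₀ π) A β₁ β₂ γ (fun x y => by rw [← hL, Real.exp_log (hpos _)])
    (qd_cont s₀ π).measurable (qd_mass h0 π)

lemma rigid_one {c s : ℝ} (hcs : c ^ 2 + s ^ 2 = 1) (hc : c ≠ 0) (hs : s ≠ 0) (M₀ : ℝ≥0)
    {s₀ : ℝ≥0} (h0 : s₀ ≠ 0) (h1 : s₀ ≤ 1) {η : ℝ≥0} (hη : η ≠ 0) :
    ∃ δ : ℝ, 0 < δ ∧ ∀ π : ProbabilityMeasure (ℝ × ℝ),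
      ∫⁻ u, ENNReal.ofReal (u.1 ^ 2 + u.2 ^ 2) ∂(π : Measure (ℝ × ℝ)) ≤ M₀ →
      Dep π δ → Dep ((π : Measure (ℝ × ℝ)).map (rot c s)) δ →
      ∃ (m : ℝ × ℝ) (v : ℝ≥0), v ≠ 0 ∧ m.1 ^ 2 + m.2 ^ 2 ≤ 2 * M₀ + 4 ∧
        ∀ φ : ℝ × ℝ → ℝ≥0∞, Measurable φ → (∀ u, φ u ≤ 1) →
          ∫⁻ z, ∫⁻ ζ, φ (z + ζ) ∂(N2 s₀ s₀) ∂(π : Measure (ℝ × ℝ)) ≤
            ∫⁻ u, φ u ∂((gaussianReal m.1 v).prod (gaussianReal m.2 v)) + η := by
  by_contra H
  push Not at H
  choose πs hM hD hD' hbad using fun n : ℕ => H (1 / ((n : ℝ) + 1)) Nat.one_div_pos_of_nat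
  have hcomp := isCompact_closure_of_isTightMeasureSet (tight M₀ (Set.range πs) (by
    rintro _ ⟨n, rfl⟩
    exact hM n))
  obtain ⟨π, -, ψ, hψ, hlim⟩ := hcomp.tendsto_subseq (x := πs)
    fun n => subset_closure (Set.mem_range_self n)
  obtain ⟨m, v, hv, hq⟩ := limit_gauss hcs hc hs h0 hlim (fun n => 1 / ((ψ n : ℝ) + 1))
    (tendsto_one_div_add_atTop_nhds_zero_nat.comp hψ.tendsto_atTop) (fun n => hD (ψ n))
    (fun n => hD' (ψ n))
  set Qn : ℕ → ℝ × ℝ → ℝ≥0∞ := fun n w => ENNReal.ofReal (qd s₀ (πs (ψ n)) w) with hQn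
  set Q : ℝ × ℝ → ℝ≥0∞ := fun w => ENNReal.ofReal (qd s₀ π w) with hQ
  have mQn : ∀ n, Measurable (Qn n) := fun n => (qd_cont s₀ _).measurable.ennreal_ofReal
  have mQ : Measurable Q := (qd_cont s₀ _).measurable.ennreal_ofReal
  have lim : ∀ w, Tendsto (fun n => Qn n w) atTop (𝓝 (Q w)) := fun w =>
    ENNReal.tendsto_ofReal (tendsto_qd hlim s₀ w)
  have hG : (gaussianReal m.1 v).prod (gaussianReal m.2 v) =
      (volume : Measure (ℝ × ℝ)).withDensity Q := by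
    rw [gauss_prod _ _ hv]
    simp only [hQ, hq]
  have mr : Measurable fun w : ℝ × ℝ => ENNReal.ofReal (w.1 ^ 2 + w.2 ^ 2) := by fun_prop
  have hm : m.1 ^ 2 + m.2 ^ 2 ≤ 2 * M₀ + 4 := by
    have e1 := mom2 0 0 m.1 m.2 v
    simp only [zero_add] at e1
    rw [hG, lintegral_withDensity_eq_lintegral_mul _ mQ mr] at e1
    have e2 : ∀ w : ℝ × ℝ, (Q * fun w : ℝ × ℝ => ENNReal.ofReal (w.1 ^ 2 + w.2 ^ 2)) w =
        liminf (fun n => Qn n w * ENNReal.ofReal (w.1 ^ 2 + w.2 ^ 2)) atTop := fun w =>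
      (ENNReal.Tendsto.mul_const (lim w) (Or.inr ENNReal.ofReal_ne_top)).liminf_eq.symm
    simp only [e2] at e1
    have e3 := lintegral_liminf_le (μ := (volume : Measure (ℝ × ℝ))) (u := atTop)
      (f := fun n w => Qn n w * ENNReal.ofReal (w.1 ^ 2 + w.2 ^ 2)) fun n => (mQn n).mul mr
    rw [e1] at e3
    have e4 : ENNReal.ofReal (m.1 ^ 2 + m.2 ^ 2 + 2 * v) ≤ ENNReal.ofReal (M₀ + 2 * s₀) := by
      refine e3.trans (liminf_le_of_frequently_le' (Frequently.of_forall fun n => ?_))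
      simp only [hQn]
      rw [qd_moment h0, ENNReal.ofReal_add (by positivity) (by positivity),
        ENNReal.ofReal_coe_nnreal]
      exact add_le_add (hM _) le_rfl
    have e5 := (ENNReal.ofReal_le_ofReal_iff (by positivity)).1 e4
    have e6 : (s₀ : ℝ) ≤ 1 := h1
    have e7 : (0 : ℝ) ≤ v := v.2
    have e8 : (0 : ℝ) ≤ M₀ := M₀.2
    linarith
  have hS := scheffe Qn Q mQn mQ (fun n => qd_mass h0 _) (qd_mass h0 _)
    (fun _ => ENNReal.ofReal_ne_top) lim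
  obtain ⟨n, hn⟩ := (hS.eventually (ge_mem_nhds (show (0 : ℝ≥0∞) < η by
    simpa [pos_iff_ne_zero] using hη))).exists
  obtain ⟨φ, hφ, hφ1, hlt⟩ := hbad (ψ n) m v hv hm
  refine absurd hlt (not_lt.2 ?_)
  rw [smooth_eq h0 _ φ hφ, hG, lintegral_withDensity_eq_lintegral_mul _ mQ hφ]
  refine le_trans ?_ (add_le_add le_rfl hn)
  rw [← lintegral_add_left (mQ.mul hφ)]
  refine lintegral_mono fun w => ?_
  calc Qn n w * φ w ≤ (Q w + (Qn n w - Q w)) * φ w := by gcongr; exact le_add_tsub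
    _ = Q w * φ w + (Qn n w - Q w) * φ w := add_mul _ _ _
    _ ≤ Q w * φ w + (Qn n w - Q w) := add_le_add le_rfl (mul_le_of_le_one_right' (hφ1 w))

/-- The dilation of the plane. -/
def dil (r : ℝ) (u : ℝ × ℝ) : ℝ × ℝ := (r * u.1, r * u.2)

lemma dil_meas (r : ℝ) : Measurable (dil r) := by
  unfold dil
  fun_prop

lemma dep_dil {π : Measure (ℝ × ℝ)} {δ : ℝ} (h : Dep π δ) (r : ℝ) : Dep (π.map (dil r)) δ := by
  intro g₁ g₂ m₁ m₂ b₁ b₂
  have a1 : Measurable fun u : ℝ × ℝ => g₁ u.1 := m₁.comp measurable_fst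
  have a2 : Measurable fun u : ℝ × ℝ => g₂ u.2 := m₂.comp measurable_snd
  have a3 : Measurable fun u : ℝ × ℝ => g₁ u.1 * g₂ u.2 := a1.mul a2
  rw [integral_map (dil_meas r).aemeasurable a1.aestronglyMeasurable,
    integral_map (dil_meas r).aemeasurable a2.aestronglyMeasurable,
    integral_map (dil_meas r).aemeasurable a3.aestronglyMeasurable]
  exact h (fun x => g₁ (r * x)) (fun x => g₂ (r * x)) (m₁.comp (measurable_const_mul r))
    (m₂.comp (measurable_const_mul r)) (fun _ => b₁ _) (fun _ => b₂ _)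

lemma gauss_dil (σ : ℝ≥0) (m₁ m₂ : ℝ) (v : ℝ≥0) :
    ((gaussianReal m₁ v).prod (gaussianReal m₂ v)).map (dil √σ) =
      (gaussianReal (√σ * m₁) (σ * v)).prod (gaussianReal (√σ * m₂) (σ * v)) := by
  have e : ∀ m : ℝ, (gaussianReal m v).map (√σ * ·) = gaussianReal (√σ * m) (σ * v) := by
    intro m
    rw [gaussianReal_map_const_mul]
    congr 2
    ext
    simp
  rw [← e, ← e, Measure.map_prod_map _ _ (measurable_const_mul _) (measurable_const_mul _)]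
  rfl

theorem rigid : RigidStmt := by
  intro c s hcs hc hs M₀ s₀ h0 h1 η hη
  obtain ⟨δ, hδ, H⟩ := rigid_one hcs hc hs M₀ h0 h1 hη
  refine ⟨δ, hδ, fun σ hσ π _ hM hD hD' => ?_⟩
  have hσ' : (0 : ℝ) < σ := by positivity
  have hr : 0 < √(σ : ℝ) := Real.sqrt_pos.2 hσ'
  have hr2 : √(σ : ℝ) ^ 2 = σ := Real.sq_sqrt hσ'.le
  have : IsProbabilityMeasure (π.map (dil (√(σ : ℝ))⁻¹)) :=
    Measure.isProbabilityMeasure_map (dil_meas _).aemeasurable
  have mr : Measurable fun w : ℝ × ℝ => ENNReal.ofReal (w.1 ^ 2 + w.2 ^ 2) := by fun_prop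
  obtain ⟨m, v, hv, hm, hφ⟩ := H ⟨π.map (dil (√(σ : ℝ))⁻¹), inferInstance⟩ (by
      change ∫⁻ u, ENNReal.ofReal (u.1 ^ 2 + u.2 ^ 2) ∂(π.map (dil (√(σ : ℝ))⁻¹)) ≤ M₀
      rw [lintegral_map mr (dil_meas _)]
      have : ∀ u : ℝ × ℝ, ENNReal.ofReal ((dil (√(σ : ℝ))⁻¹ u).1 ^ 2 +
          (dil (√(σ : ℝ))⁻¹ u).2 ^ 2) =
          ((σ⁻¹ : ℝ≥0) : ℝ≥0∞) * ENNReal.ofReal (u.1 ^ 2 + u.2 ^ 2) := by
        intro u
        rw [← ENNReal.ofReal_coe_nnreal, ← ENNReal.ofReal_mul (NNReal.coe_nonneg _)]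
        congr 1
        simp only [dil, mul_pow, inv_pow, hr2, NNReal.coe_inv]
        ring
      simp only [this]
      rw [lintegral_const_mul _ mr]
      refine (mul_le_mul_right hM _).trans ?_
      rw [← ENNReal.coe_mul, ENNReal.coe_le_coe, mul_comm M₀, ← mul_assoc, inv_mul_cancel₀ hσ,
        one_mul])
    (dep_dil hD _) (by
      change Dep ((π.map (dil (√(σ : ℝ))⁻¹)).map (rot c s)) δ
      have := dep_dil hD' (√(σ : ℝ))⁻¹
      rw [Measure.map_map (dil_meas _) (rot_cont c s).measurable] at this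
      rw [Measure.map_map (rot_cont c s).measurable (dil_meas _)]
      convert this using 2
      ext u
      · simp only [rot, dil, Function.comp]; ring
      · simp only [rot, dil, Function.comp]; ring)
  refine ⟨dil √σ m, σ * v, mul_ne_zero hσ hv, ?_, fun φ mφ bφ => ?_⟩
  · simp only [dil, mul_pow, hr2]
    nlinarith
  · have mφ' : Measurable fun u => φ (dil √σ u) := mφ.comp (dil_meas _)
    have h2 := hφ (fun u => φ (dil √σ u)) mφ' fun _ => bφ _
    change ∫⁻ z, ∫⁻ ζ, φ (dil √σ (z + ζ)) ∂(N2 s₀ s₀) ∂(π.map (dil (√(σ : ℝ))⁻¹)) ≤ _ at h2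
    have mI : Measurable fun z : ℝ × ℝ => ∫⁻ ζ, φ (dil √σ (z + ζ)) ∂(N2 s₀ s₀) := by
      unfold N2
      exact Measurable.lintegral_prod_right (f := fun z ζ => φ (dil √σ (z + ζ)))
        (mφ'.comp measurable_add)
    rw [lintegral_map mI (dil_meas _), ← lintegral_map mφ (dil_meas _), gauss_dil] at h2
    refine le_trans (le_of_eq ?_) h2
    congr 1
    ext z
    have e : N2 (σ * s₀) (σ * s₀) = (N2 s₀ s₀).map (dil √σ) := by
      unfold N2
      rw [gauss_dil, mul_zero]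
    rw [e, lintegral_map (show Measurable fun ζ => φ (z + ζ) from
      mφ.comp (measurable_const_add z)) (dil_meas _)]
    congr 1
    ext ζ
    congr 1
    ext
    · simp only [dil, Prod.fst_add]; field_simp
    · simp only [dil, Prod.snd_add]; field_simp

end Pool.Agent.MP_2b113a_an.H50
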