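import Pool.Agent.MP_2b113a_an.H33.Defs

/-! Uniform irreducibility by the Casimir element of the trace form. -/

set_option autoImplicit false

namespace Pool.Agent.MP_2b113a_an.H50

open Polynomial Pool.Agent.MP_2b113a_an.H33 LinearMap

variable {T : Type} [AddCommGroup T] [Module ℚ T] [Module.Finite ℚ T]

lemma nondeg [Nontrivial T] {S : Set (Module.End ℚ T)}
    (hS : ∀ W : Submodule ℚ T, (∀ f ∈ S, ∀ w ∈ W, f w ∈ W) → W = ⊥ ∨ W = ⊤)
    (a : Algebra.adjoin ℚ S) (ha : ∀ b : Algebra.adjoin ℚ S, trace ℚ T (b.1 * a.1) = 0) : a = 0 := by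
  have simple : IsSimpleModule (Algebra.adjoin ℚ S) T := by
    refine { eq_bot_or_eq_top := fun W => ?_ }
    have := hS (W.restrictScalars ℚ) fun f hf w hw =>
      W.smul_mem (⟨f, Algebra.subset_adjoin hf⟩ : Algebra.adjoin ℚ S) hw
    simpa using this
  have art : IsArtinianRing (Algebra.adjoin ℚ S) := IsArtinianRing.of_finite ℚ _
  have ss : IsSemisimpleRing (Algebra.adjoin ℚ S) := by
    rw [IsArtinianRing.isSemisimpleRing_iff_jacobson, eq_bot_iff]
    intro r hr
    have := Module.mem_annihilator.1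
      (IsSemisimpleModule.jacobson_le_annihilator (Algebra.adjoin ℚ S) T hr)
    exact Subtype.ext (LinearMap.ext this)
  obtain ⟨e, he, h⟩ := IsSemisimpleRing.ideal_eq_span_idempotent (Ideal.span {a})
  obtain ⟨c, hc⟩ := Ideal.mem_span_singleton'.1 (h ▸ Ideal.mem_span_singleton_self e)
  have he' : IsIdempotentElem e.1 := congrArg Subtype.val he
  have h0 : e.1 = 0 := he'.trace_eq_zero_iff.1 (by rw [← hc]; exact ha c)
  have h1 : e = 0 := Subtype.ext h0
  rw [h1] at h
  simpa using h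

/-- Dual families for the trace form on `A`. -/
structure Du (A : Subalgebra ℚ (Module.End ℚ T)) {n : ℕ} (b b' : Fin n → Module.End ℚ T) :
    Prop where
  m : ∀ i, b i ∈ A
  m' : ∀ i, b' i ∈ A
  e : ∀ u ∈ A, u = ∑ j, trace ℚ T (u * b' j) • b j
  e' : ∀ v ∈ A, v = ∑ i, trace ℚ T (b i * v) • b' i
  one : ∀ i, trace ℚ T (b' i * b i) = 1

lemma exists_du {A : Subalgebra ℚ (Module.End ℚ T)}
    (h : ∀ a : A, (∀ b : A, trace ℚ T (b.1 * a.1) = 0) → a = 0) :
    ∃ b b' : Fin (Module.finrank ℚ A) → Module.End ℚ T, Du A b b' := by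
  let B : LinearMap.BilinForm ℚ A :=
    ((LinearMap.mul ℚ (Module.End ℚ T)).compr₂ (trace ℚ T)).compl₁₂ A.val.toLinearMap
      A.val.toLinearMap
  have hB : ∀ u v : A, B u v = trace ℚ T (u.1 * v.1) := fun _ _ => rfl
  have nd : B.Nondegenerate :=
    ⟨fun a ha => h a fun b => by rw [trace_mul_comm]; exact ha b, fun a ha => h a ha⟩
  have sy : B.IsSymm := ⟨fun u v => by rw [hB, hB, trace_mul_comm]⟩
  let b := Module.finBasis ℚ A
  refine ⟨fun i => (b i).1, fun i => (B.dualBasis nd b i).1, fun i => (b i).2,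
    fun i => (B.dualBasis nd b i).2, fun u hu => ?_, fun v hv => ?_, fun i => ?_⟩
  · have := (B.dualBasis nd (B.dualBasis nd b)).sum_repr ⟨u, hu⟩
    simp only [BilinForm.dualBasis_repr_apply] at this
    rw [BilinForm.dualBasis_dualBasis nd sy] at this
    simpa [hB] using congrArg Subtype.val this.symm
  · have := (B.dualBasis nd b).sum_repr ⟨v, hv⟩
    simp only [BilinForm.dualBasis_repr_apply] at this
    simpa [hB, trace_mul_comm ℚ v] using congrArg Subtype.val this.symm
  · rw [← hB, BilinForm.apply_dualBasis_left, if_pos rfl]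

lemma Du.swap {A : Subalgebra ℚ (Module.End ℚ T)} {n : ℕ} {b b' : Fin n → Module.End ℚ T}
    (h : Du A b b') (Φ : Module.End ℚ T →ₗ[ℚ] Module.End ℚ T →ₗ[ℚ] Module.End ℚ T)
    (φ ψ : Module.End ℚ T → Module.End ℚ T) (hφ : ∀ u ∈ A, φ u ∈ A) (hψ : ∀ u ∈ A, ψ u ∈ A)
    (ad : ∀ u v, trace ℚ T (φ u * v) = trace ℚ T (u * ψ v)) :
    ∑ i, Φ (φ (b i)) (b' i) = ∑ i, Φ (b i) (ψ (b' i)) := by
  have e1 : ∀ i, Φ (φ (b i)) (b' i) = ∑ j, trace ℚ T (b i * ψ (b' j)) • Φ (b j) (b' i) := by
    intro i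
    conv_lhs => rw [h.e _ (hφ _ (h.m i))]
    simp only [map_sum, map_smul, LinearMap.sum_apply, LinearMap.smul_apply, ad]
  have e2 : ∀ j, Φ (b j) (ψ (b' j)) = ∑ i, trace ℚ T (b i * ψ (b' j)) • Φ (b j) (b' i) := by
    intro j
    conv_lhs => rw [h.e' _ (hψ _ (h.m' j))]
    simp only [map_sum, map_smul]
  simp only [e1, e2]
  exact Finset.sum_comm

/-- `(u, v) ↦ u * p * v * q` -/
noncomputable def sw (p q : Module.End ℚ T) :
    Module.End ℚ T →ₗ[ℚ] Module.End ℚ T →ₗ[ℚ] Module.End ℚ T :=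
  LinearMap.mk₂ ℚ (fun u v => u * p * v * q) (fun _ _ _ => by simp only [add_mul])
    (fun _ _ _ => by simp only [smul_mul_assoc]) (fun _ _ _ => by simp only [add_mul, mul_add])
    (fun _ _ _ => by simp only [smul_mul_assoc, mul_smul_comm])

omit [Module.Finite ℚ T] in
lemma sw_apply (p q u v : Module.End ℚ T) : sw p q u v = u * p * v * q := rfl

/-- Conjugation. -/
noncomputable def cj {g g' : Module.End ℚ T} (h : g * g' = 1) (h' : g' * g = 1) :
    Module.End ℚ T →ₐ[ℚ] Module.End ℚ T where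
  toFun f := g * f * g'
  map_one' := by rw [mul_one, h]
  map_mul' u v := by
    rw [mul_assoc (g * u) g', ← mul_assoc g', ← mul_assoc g', h', one_mul]
    simp only [mul_assoc]
  map_zero' := by simp
  map_add' u v := by rw [mul_add, add_mul]
  commutes' c := by rw [← Algebra.commutes, mul_assoc, h, mul_one]

omit [Module.Finite ℚ T] in
lemma cj_mem {S : Set (Module.End ℚ T)} {g g' : Module.End ℚ T} (h : g * g' = 1) (h' : g' * g = 1)
    (hS : ∀ f ∈ S, g * f * g' ∈ S) {u : Module.End ℚ T} (hu : u ∈ Algebra.adjoin ℚ S) :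
    g * u * g' ∈ Algebra.adjoin ℚ S := by
  have : (Algebra.adjoin ℚ S).map (cj h h') ≤ Algebra.adjoin ℚ S := by
    rw [AlgHom.map_adjoin]
    refine Algebra.adjoin_mono ?_
    rintro _ ⟨f, hf, rfl⟩
    exact hS f hf
  exact this ⟨u, hu, rfl⟩

lemma schur {S : Set (Module.End ℚ T)}
    (hS : ∀ W : Submodule ℚ T, (∀ f ∈ S, ∀ w ∈ W, f w ∈ W) → W = ⊥ ∨ W = ⊤)
    {c : Module.End ℚ T} (h0 : c ≠ 0) (hc : ∀ f ∈ S, f * c = c * f) : IsUnit c := by
  rw [LinearMap.isUnit_iff_ker_eq_bot]
  refine (hS _ fun f hf w hw => ?_).resolve_right fun e => h0 (LinearMap.ker_eq_top.1 e)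
  rw [LinearMap.mem_ker] at hw ⊢
  rw [← Module.End.mul_apply, ← hc f hf, Module.End.mul_apply, hw, map_zero]

lemma inv_poly {u : Module.End ℚ T} (hu : IsUnit u) : ∃ r : ℚ[X], u * aeval u r = 1 := by
  have h0 : u.charpoly.coeff 0 ≠ 0 := fun e => by
    have := (LinearMap.isUnit_det u hu).ne_zero
    rw [LinearMap.det_eq_sign_charpoly_coeff, e, mul_zero] at this
    exact this rfl
  have h1 := u.aeval_self_charpoly
  rw [← X_mul_divX_add u.charpoly, map_add, map_mul, aeval_X, aeval_C, add_eq_zero_iff_eq_neg] at h1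
  refine ⟨(-(u.charpoly.coeff 0)⁻¹) • u.charpoly.divX, ?_⟩
  rw [map_smul, mul_smul_comm, h1, Algebra.algebraMap_eq_smul_one, smul_neg, smul_smul, ← neg_smul,
    neg_mul, neg_neg, inv_mul_cancel₀ h0, one_smul]

theorem ui : UIStmt := by
  intro T _ _ _ S hS e₁ he
  have nt : Nontrivial T := by
    by_contra hn
    rw [not_nontrivial_iff_subsingleton] at hn
    exact he (by rw [Subsingleton.elim e₁ 0, map_zero])
  obtain ⟨b, b', h⟩ := exists_du (nondeg hS)
  have hc : ∀ x ∈ Algebra.adjoin ℚ S, x * ∑ i, b' i * b i = (∑ i, b' i * b i) * x := by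
    intro x hx
    have := h.swap (sw 1 1).flip (· * x) (x * ·) (fun u hu => mul_mem hu hx)
      (fun u hu => mul_mem hx hu) fun u v => by rw [mul_assoc]
    simp only [LinearMap.flip_apply, sw_apply, mul_one] at this
    rw [Finset.mul_sum, Finset.sum_mul]
    simpa only [mul_assoc] using this.symm
  have hE : ∀ e, ∀ x ∈ Algebra.adjoin ℚ S,
      x * ∑ i, b i * e * b' i = (∑ i, b i * e * b' i) * x := by
    intro e x hx
    have := h.swap (sw e 1) (x * ·) (· * x) (fun u hu => mul_mem hx hu)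
      (fun u hu => mul_mem hu hx) fun u v => by
        rw [mul_assoc, trace_mul_comm, mul_assoc]
    simp only [sw_apply, mul_one] at this
    rw [Finset.mul_sum, Finset.sum_mul]
    simpa only [mul_assoc] using this
  have c0 : ∑ i, b' i * b i ≠ 0 := fun e => by
    have h1 := congrArg (trace ℚ T) e
    simp only [map_sum, h.one, map_zero, Finset.sum_const, Finset.card_univ, Fintype.card_fin,
      nsmul_eq_mul, mul_one, Nat.cast_eq_zero] at h1
    exact Module.finrank_pos.ne' h1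
  obtain ⟨d, hd⟩ := schur hS c0 fun f hf => hc f (Algebra.subset_adjoin hf)
  have E0 : ∑ i, b i * e₁ * b' i ≠ 0 := fun e => by
    have h1 := congrArg (fun z => trace ℚ T (d⁻¹.1 * z)) e
    simp only [Finset.mul_sum, map_sum, mul_zero, map_zero] at h1
    have h2 : ∀ i, trace ℚ T (d⁻¹.1 * (b i * e₁ * b' i)) =
        trace ℚ T (d⁻¹.1 * (b' i * b i) * e₁) := by
      intro i
      have h3 : Commute (b' i) d.1 := by rw [hd]; exact hc _ (h.m' i)
      rw [← mul_assoc, trace_mul_comm, ← mul_assoc, h3.units_inv_right.eq]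
      simp only [mul_assoc]
    simp only [h2] at h1
    rw [← map_sum, ← Finset.sum_mul, ← Finset.mul_sum, ← hd, Units.inv_mul, one_mul] at h1
    exact he h1
  obtain ⟨r, hr⟩ := inv_poly (schur hS E0 fun f hf => hE _ f (Algebra.subset_adjoin hf))
  refine ⟨List.ofFn fun i => (b i, b' i), r, fun a ha => ?_, fun g g' e x y h1 h2 h3 hx h4 => ?_⟩
  · obtain ⟨i, rfl⟩ := (List.mem_ofFn' _ _).1 ha
    exact ⟨h.m i, h.m' i⟩
  rw [List.map_ofFn, List.sum_ofFn]
  simp only [Function.comp_apply]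
  have k1 : ∑ i, b i * (x * y) * b' i = ∑ i, b i * (y * x) * b' i := by
    have := h.swap (sw y 1) (· * x) (x * ·) (fun u hu => mul_mem hu hx)
      (fun u hu => mul_mem hx hu) fun u v => by rw [mul_assoc]
    simpa only [sw_apply, mul_one, mul_assoc] using this
  have cc : ∀ z, g' * (g * z) = z := fun z => by rw [← mul_assoc, h2, one_mul]
  have cc' : ∀ z, g * (g' * z) = z := fun z => by rw [← mul_assoc, h1, one_mul]
  have k2 : cj h1 h2 (∑ i, b i * e * b' i) = ∑ i, b i * e₁ * b' i := by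
    have := h.swap (sw (g * e) g') (fun u => g * u * g') (fun u => g' * u * g)
      (fun u hu => cj_mem h1 h2 (fun f hf => (h3 f hf).1) hu)
      (fun u hu => cj_mem h2 h1 (fun f hf => (h3 f hf).2) hu) fun u v => by
        rw [mul_assoc, mul_assoc, trace_mul_comm]
        simp only [mul_assoc]
    simp only [sw_apply, mul_assoc, cc, h1, mul_one] at this
    show g * _ * g' = _
    rw [Finset.mul_sum, Finset.sum_mul]
    simp only [mul_assoc]
    rw [this]
    have k3 : ∀ i, b i * (g * (e * (g' * b' i))) =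
        b i * (e₁ * b' i) + (b i * (x * y) * b' i - b i * (y * x) * b' i) := by
      intro i
      rw [← mul_assoc e, ← mul_assoc g, ← mul_assoc g, h4]
      noncomm_ring
    simp only [k3, Finset.sum_add_distrib, Finset.sum_sub_distrib, k1, sub_self, add_zero]
  have k4 : cj h1 h2 ((∑ i, b i * e * b' i) * aeval (∑ i, b i * e * b' i) r) = 1 := by
    rw [map_mul, ← aeval_algHom_apply, k2, hr]
  have k5 := congrArg (fun z => g' * z * g) k4
  change g' * (g * _ * g') * g = g' * 1 * g at k5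
  rwa [mul_one, h2, mul_assoc, mul_assoc, h2, mul_one, cc] at k5

end Pool.Agent.MP_2b113a_an.H50
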