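import Pool.Agent.MP_2b113a_an.H83.Defs

/-!
First part of the stable Bernstein theorem: the functional equation and the smoothed densities.
-/

namespace Pool.Agent.MP_2b113a_an.H50

open MeasureTheory ProbabilityTheory Filter Topology
open scoped ENNReal NNReal
open Pool.Agent.MP_2b113a_an.H83

lemma add_linear (f : ℝ → ℝ) (hf : Continuous f) (h : ∀ a b, f (a + b) = f a + f b) (x : ℝ) :
    f x = x * f 1 := by
  let F : ℝ →+ ℝ := AddMonoidHom.mk' f h
  have := map_real_smul F hf x 1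
  simpa [F] using this

lemma quad (u : ℝ → ℝ) (hu : Continuous u)
    (h : ∀ x a b, u (x + a + b) + u x - u (x + a) - u (x + b) = u (a + b) + u 0 - u a - u b) :
    ∃ A β : ℝ, ∀ x, u x = A * x ^ 2 + β * x + u 0 := by
  set B : ℝ → ℝ → ℝ := fun a b => u (a + b) + u 0 - u a - u b with hB
  have hadd : ∀ b a a', B (a + a') b = B a b + B a' b := by
    intro b a a'
    have h1 := h a' a b
    simp only [hB]
    rw [show a + a' + b = a' + a + b by ring, show a + a' = a' + a by ring]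
    linarith
  have hsymm : ∀ a b, B a b = B b a := by
    intro a b
    simp only [hB]
    rw [add_comm a b]; ring
  have hc : ∀ b, Continuous fun a => B a b := by
    intro b
    simp only [hB]
    fun_prop
  have hlin : ∀ a b, B a b = a * b * B 1 1 := by
    intro a b
    have h1 := add_linear (fun a => B a b) (hc b) (hadd b) a
    have h2 := add_linear (fun a => B a 1) (hc 1) (hadd 1) b
    rw [h1, hsymm 1 b, h2]; ring
  set A := B 1 1 / 2 with hA
  have hw := add_linear (fun x => u x - u 0 - A * x ^ 2) (by fun_prop) (by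
    intro a b
    have h1 := hlin a b
    simp only [hB] at h1
    have h2 : u (1 + 1) + u 0 - u 1 - u 1 = 2 * A := by simp only [hA, hB]; ring
    rw [h2] at h1
    nlinarith [h1])
  refine ⟨A, u 1 - u 0 - A * 1 ^ 2, fun x => ?_⟩
  have := hw x
  linarith

lemma func_eq (c s : ℝ) (hc : c ≠ 0) (hs : s ≠ 0) (L : ℝ × ℝ → ℝ) (hL : Continuous L)
    (H1 : ∀ x y x' y', L (x, y) + L (x', y') = L (x, y') + L (x', y))
    (H2 : ∀ x y a b, L (x + c * a + s * b, y + -(s * a) + c * b) + L (x, y) =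
      L (x + c * a, y + -(s * a)) + L (x + s * b, y + c * b)) :
    ∃ A β₁ β₂ γ : ℝ, ∀ x y, L (x, y) = A * (x ^ 2 + y ^ 2) + β₁ * x + β₂ * y + γ := by
  set u : ℝ → ℝ := fun x => L (x, 0) with hu
  set v : ℝ → ℝ := fun y => L (0, y) - L (0, 0) with hv
  have hsum : ∀ x y, L (x, y) = u x + v y := by
    intro x y
    have := H1 x y 0 0
    simp only [hu, hv]
    linarith
  have key : ∀ x y a b, u (x + c * a + s * b) + u x - u (x + c * a) - u (x + s * b) =
      -(v (y + -(s * a) + c * b) + v y - v (y + -(s * a)) - v (y + c * b)) := by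
    intro x y a b
    have := H2 x y a b
    simp only [hsum] at this
    linarith
  obtain ⟨A, β₁, hA⟩ := quad u (by simp only [hu]; fun_prop) (by
    intro x a b
    have h1 := key x 0 (a / c) (b / s)
    have h2 := key 0 0 (a / c) (b / s)
    rw [mul_div_cancel₀ a hc, mul_div_cancel₀ b hs] at h1 h2
    rw [h1, ← h2]; simp)
  obtain ⟨A', β₂, hA'⟩ := quad v (by simp only [hv]; fun_prop) (by
    intro y a b
    have h1 := key 0 y (-(a / s)) (b / c)
    have h2 := key 0 0 (-(a / s)) (b / c)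
    rw [show -(s * -(a / s)) = a by field_simp, mul_div_cancel₀ b hc] at h1 h2
    simp only [zero_add] at h1 h2
    linarith)
  have hAA : A' = A := by
    have h1 := key 0 0 1 1
    rw [hA (0 + c * 1 + s * 1), hA (0 + c * 1), hA (0 + s * 1), hA' (0 + -(s * 1) + c * 1),
      hA' (0 + -(s * 1)), hA' (0 + c * 1)] at h1
    have h2 : (A' - A) * (c * s) = 0 := by nlinarith [h1]
    rcases mul_eq_zero.1 h2 with h | h
    · linarith
    · exact absurd h (mul_ne_zero hc hs)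
  refine ⟨A, β₁, β₂, u 0 + v 0, fun x y => ?_⟩
  rw [hsum, hA x, hA' y, hAA]; ring

/-- The supremum of the centred Gaussian density. -/
noncomputable def pk (s₀ : ℝ≥0) : ℝ := (√(2 * Real.pi * s₀))⁻¹

lemma pk_pos {s₀ : ℝ≥0} (h : s₀ ≠ 0) : 0 < pk s₀ := by
  have : (0 : ℝ) < s₀ := by positivity
  unfold pk
  positivity

lemma pdf_le (s₀ : ℝ≥0) (x : ℝ) : gaussianPDFReal 0 s₀ x ≤ pk s₀ := by
  unfold gaussianPDFReal pk
  refine mul_le_of_le_one_right (by positivity) ?_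
  rw [Real.exp_le_one_iff]
  exact div_nonpos_of_nonpos_of_nonneg (by nlinarith [sq_nonneg (x - 0)]) (by positivity)

lemma pdf_cont (m : ℝ) (s₀ : ℝ≥0) : Continuous (gaussianPDFReal m s₀) := by
  unfold gaussianPDFReal
  fun_prop

/-- The planar kernel. -/
noncomputable def ker (s₀ : ℝ≥0) (ζ : ℝ × ℝ) : ℝ :=
  gaussianPDFReal 0 s₀ ζ.1 * gaussianPDFReal 0 s₀ ζ.2

lemma ker_cont (s₀ : ℝ≥0) : Continuous (ker s₀) := by
  unfold ker
  exact ((pdf_cont 0 s₀).comp continuous_fst).mul ((pdf_cont 0 s₀).comp continuous_snd)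

lemma ker_pos {s₀ : ℝ≥0} (h : s₀ ≠ 0) (ζ : ℝ × ℝ) : 0 < ker s₀ ζ :=
  mul_pos (gaussianPDFReal_pos _ _ _ h) (gaussianPDFReal_pos _ _ _ h)

lemma ker_nonneg (s₀ : ℝ≥0) (ζ : ℝ × ℝ) : 0 ≤ ker s₀ ζ :=
  mul_nonneg (gaussianPDFReal_nonneg _ _ _) (gaussianPDFReal_nonneg _ _ _)

lemma ker_norm_le (s₀ : ℝ≥0) (ζ : ℝ × ℝ) : ‖ker s₀ ζ‖ ≤ pk s₀ * pk s₀ := by
  rw [Real.norm_of_nonneg (ker_nonneg _ _)]
  exact mul_le_mul (pdf_le _ _) (pdf_le _ _) (gaussianPDFReal_nonneg _ _ _)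
    ((gaussianPDFReal_nonneg 0 s₀ 0).trans (pdf_le _ _))

lemma ker_rot {c s : ℝ} (hcs : c ^ 2 + s ^ 2 = 1) (s₀ : ℝ≥0) (w u : ℝ × ℝ) :
    ker s₀ (rot c s w - rot c s u) = ker s₀ (w - u) := by
  unfold ker gaussianPDFReal rot
  simp only [Prod.fst_sub, Prod.snd_sub, sub_zero]
  rw [mul_mul_mul_comm, ← Real.exp_add, mul_mul_mul_comm _ (Real.exp _), ← Real.exp_add]
  congr 2
  rw [← add_div, ← add_div]
  congr 1
  linear_combination (-((w.1 - u.1) ^ 2 + (w.2 - u.2) ^ 2)) * hcs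

/-- The density of the smoothed law. -/
noncomputable def qd (s₀ : ℝ≥0) (π : Measure (ℝ × ℝ)) (w : ℝ × ℝ) : ℝ :=
  ∫ u, ker s₀ (w - u) ∂π

lemma ker_integrable (s₀ : ℝ≥0) (π : Measure (ℝ × ℝ)) [IsFiniteMeasure π] (w : ℝ × ℝ) :
    Integrable (fun u => ker s₀ (w - u)) π :=
  Integrable.of_bound ((ker_cont s₀).comp (continuous_const.sub continuous_id)).aestronglyMeasurable
    (pk s₀ * pk s₀) (Eventually.of_forall fun _ => ker_norm_le _ _)

lemma qd_pos {s₀ : ℝ≥0} (h : s₀ ≠ 0) (π : Measure (ℝ × ℝ)) [IsProbabilityMeasure π]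
    (w : ℝ × ℝ) : 0 < qd s₀ π w := by
  unfold qd
  rw [integral_pos_iff_support_of_nonneg (fun u => ker_nonneg _ _) (ker_integrable s₀ π w)]
  have : Function.support (fun u => ker s₀ (w - u)) = Set.univ := by
    ext u
    simp [(ker_pos h _).ne']
  rw [this]; simp

lemma qd_cont (s₀ : ℝ≥0) (π : Measure (ℝ × ℝ)) [IsFiniteMeasure π] : Continuous (qd s₀ π) := by
  unfold qd
  refine continuous_of_dominated (bound := fun _ => pk s₀ * pk s₀) (fun w => ?_)
    (fun w => Eventually.of_forall fun _ => ker_norm_le _ _) (integrable_const _)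
    (Eventually.of_forall fun u => ?_)
  · exact (ker_integrable s₀ π w).aestronglyMeasurable
  · exact (ker_cont s₀).comp (continuous_id.sub continuous_const)

lemma rot_cont (c s : ℝ) : Continuous (rot c s) := by
  unfold rot
  fun_prop

lemma qd_rot {c s : ℝ} (hcs : c ^ 2 + s ^ 2 = 1) (s₀ : ℝ≥0) (π : Measure (ℝ × ℝ))
    (w : ℝ × ℝ) : qd s₀ (π.map (rot c s)) (rot c s w) = qd s₀ π w := by
  unfold qd
  have hm : Continuous fun u => ker s₀ (rot c s w - u) :=
    (ker_cont s₀).comp (continuous_const.sub continuous_id)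
  rw [integral_map (rot_cont c s).measurable.aemeasurable hm.aestronglyMeasurable]
  simp only [ker_rot hcs]

lemma tendsto_int {πs : ℕ → ProbabilityMeasure (ℝ × ℝ)} {π : ProbabilityMeasure (ℝ × ℝ)}
    (h : Tendsto πs atTop (𝓝 π)) (f : ℝ × ℝ → ℝ) (hf : Continuous f) (C : ℝ)
    (hC : ∀ x, ‖f x‖ ≤ C) :
    Tendsto (fun n => ∫ u, f u ∂(πs n : Measure (ℝ × ℝ))) atTop
      (𝓝 (∫ u, f u ∂(π : Measure (ℝ × ℝ)))) :=
  ProbabilityMeasure.tendsto_iff_forall_integral_tendsto.1 h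
    (BoundedContinuousFunction.ofNormedAddCommGroup f hf C hC)

lemma tendsto_qd {πs : ℕ → ProbabilityMeasure (ℝ × ℝ)} {π : ProbabilityMeasure (ℝ × ℝ)}
    (h : Tendsto πs atTop (𝓝 π)) (s₀ : ℝ≥0) (w : ℝ × ℝ) :
    Tendsto (fun n => qd s₀ (πs n) w) atTop (𝓝 (qd s₀ π w)) :=
  tendsto_int h _ ((ker_cont s₀).comp (continuous_const.sub continuous_id)) _
    fun _ => ker_norm_le _ _

lemma rank_one {πs : ℕ → ProbabilityMeasure (ℝ × ℝ)} {π : ProbabilityMeasure (ℝ × ℝ)}
    (h : Tendsto πs atTop (𝓝 π)) {s₀ : ℝ≥0} (h0 : s₀ ≠ 0) (δ : ℕ → ℝ)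
    (hδ : Tendsto δ atTop (𝓝 0)) (hD : ∀ n, Dep (πs n) (δ n)) (x y x' y' : ℝ) :
    qd s₀ π (x, y) * qd s₀ π (x', y') = qd s₀ π (x, y') * qd s₀ π (x', y) := by
  have hK := pk_pos h0
  set g : ℝ → ℝ → ℝ := fun x t => gaussianPDFReal 0 s₀ (x - t) / pk s₀ with hg
  have hgc : ∀ x, Continuous (g x) := fun x =>
    ((pdf_cont 0 s₀).comp (continuous_const.sub continuous_id)).div_const _
  have hgb : ∀ x t, 0 ≤ g x t ∧ g x t ≤ 1 := fun x t =>
    ⟨div_nonneg (gaussianPDFReal_nonneg _ _ _) hK.le, (div_le_one hK).2 (pdf_le _ _)⟩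
  have hgn : ∀ x t, ‖g x t‖ ≤ 1 := fun x t => by
    rw [Real.norm_of_nonneg (hgb x t).1]; exact (hgb x t).2
  have prod : ∀ x y, ∫ u, g x u.1 * g y u.2 ∂(π : Measure (ℝ × ℝ)) =
      (∫ u, g x u.1 ∂(π : Measure (ℝ × ℝ))) * ∫ u, g y u.2 ∂(π : Measure (ℝ × ℝ)) := by
    intro x y
    have t1 := tendsto_int h (fun u => g x u.1 * g y u.2)
      (((hgc x).comp continuous_fst).mul ((hgc y).comp continuous_snd)) 1 (fun u => by
        rw [norm_mul]
        exact mul_le_one₀ (hgn _ _) (norm_nonneg _) (hgn _ _))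
    have t2 := tendsto_int h (fun u => g x u.1) ((hgc x).comp continuous_fst) 1
      (fun u => hgn _ _)
    have t3 := tendsto_int h (fun u => g y u.2) ((hgc y).comp continuous_snd) 1
      (fun u => hgn _ _)
    have t4 := (t1.sub (t2.mul t3)).abs
    have := le_of_tendsto_of_tendsto' t4 hδ fun n =>
      hD n (g x) (g y) (hgc x).measurable (hgc y).measurable (hgb x) (hgb y)
    exact sub_eq_zero.1 (abs_nonpos_iff.1 this)
  have hq : ∀ x y, qd s₀ π (x, y) = pk s₀ * pk s₀ *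
      ((∫ u, g x u.1 ∂(π : Measure (ℝ × ℝ))) * ∫ u, g y u.2 ∂(π : Measure (ℝ × ℝ))) := by
    intro x y
    rw [← prod, ← integral_const_mul]
    unfold qd ker
    congr 1
    ext u
    simp only [hg, Prod.fst_sub, Prod.snd_sub]
    field_simp
  simp only [hq]
  ring

end Pool.Agent.MP_2b113a_an.H50
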