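import Pool.Agent.MP_2b113a_an.H50.RigidA

/-!
Second part of the stable Bernstein theorem: densities, moments, Scheffé's lemma, tightness.
-/

namespace Pool.Agent.MP_2b113a_an.H50

open MeasureTheory ProbabilityTheory Filter Topology
open scoped ENNReal NNReal
open Pool.Agent.MP_2b113a_an.H83

lemma gauss_prod (m₁ m₂ : ℝ) {v : ℝ≥0} (hv : v ≠ 0) :
    (gaussianReal m₁ v).prod (gaussianReal m₂ v) = (volume : Measure (ℝ × ℝ)).withDensity
      (fun w => ENNReal.ofReal (gaussianPDFReal m₁ v w.1 * gaussianPDFReal m₂ v w.2)) := by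
  rw [gaussianReal_of_var_ne_zero _ hv, gaussianReal_of_var_ne_zero _ hv,
    prod_withDensity (measurable_gaussianPDF _ _) (measurable_gaussianPDF _ _),
    ← Measure.volume_eq_prod]
  congr 1
  ext w
  rw [ENNReal.ofReal_mul (gaussianPDFReal_nonneg _ _ _)]
  rfl

lemma gauss_meas (m₁ m₂ : ℝ) (v : ℝ≥0) : Measurable fun w : ℝ × ℝ =>
    ENNReal.ofReal (gaussianPDFReal m₁ v w.1 * gaussianPDFReal m₂ v w.2) :=
  (((pdf_cont m₁ v).comp continuous_fst).mul
    ((pdf_cont m₂ v).comp continuous_snd)).measurable.ennreal_ofReal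

lemma smooth_eq {s₀ : ℝ≥0} (h0 : s₀ ≠ 0) (π : Measure (ℝ × ℝ)) [IsProbabilityMeasure π]
    (φ : ℝ × ℝ → ℝ≥0∞) (hφ : Measurable φ) :
    ∫⁻ z, ∫⁻ ζ, φ (z + ζ) ∂(N2 s₀ s₀) ∂π = ∫⁻ w, ENNReal.ofReal (qd s₀ π w) * φ w := by
  have hk : Measurable fun ζ : ℝ × ℝ => ENNReal.ofReal (ker s₀ ζ) :=
    (ker_cont s₀).measurable.ennreal_ofReal
  have h1 : ∀ z : ℝ × ℝ, ∫⁻ ζ, φ (z + ζ) ∂(N2 s₀ s₀) =
      ∫⁻ w, ENNReal.ofReal (ker s₀ (w - z)) * φ w := by
    intro z
    unfold N2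
    rw [gauss_prod 0 0 h0, lintegral_withDensity_eq_lintegral_mul _ (gauss_meas 0 0 s₀)
      (show Measurable fun ζ => φ (z + ζ) from hφ.comp (measurable_const_add z)),
      ← lintegral_add_left_eq_self (fun w => ENNReal.ofReal (ker s₀ (w - z)) * φ w) z]
    congr 1
    ext ζ
    simp [ker]
  simp only [h1]
  rw [lintegral_lintegral_swap]
  · congr 1
    ext w
    rw [lintegral_mul_const _ (show Measurable fun z => ENNReal.ofReal (ker s₀ (w - z)) from
      hk.comp (measurable_const.sub measurable_id))]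
    unfold qd
    rw [ofReal_integral_eq_lintegral_ofReal (ker_integrable s₀ π w)
      (Eventually.of_forall fun _ => ker_nonneg _ _)]
  · exact ((hk.comp (measurable_snd.sub measurable_fst)).mul
      (hφ.comp measurable_snd)).aemeasurable

lemma qd_mass {s₀ : ℝ≥0} (h0 : s₀ ≠ 0) (π : Measure (ℝ × ℝ)) [IsProbabilityMeasure π] :
    ∫⁻ w, ENNReal.ofReal (qd s₀ π w) = 1 := by
  have := smooth_eq h0 π (fun _ => 1) measurable_const
  unfold N2 at this
  simpa using this.symm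

lemma gauss_of_exp (q : ℝ × ℝ → ℝ) (A β₁ β₂ γ : ℝ)
    (hq : ∀ x y, q (x, y) = Real.exp (A * (x ^ 2 + y ^ 2) + β₁ * x + β₂ * y + γ))
    (hm : Measurable q) (h1 : ∫⁻ w, ENNReal.ofReal (q w) = 1) :
    ∃ (m : ℝ × ℝ) (v : ℝ≥0), v ≠ 0 ∧
      ∀ w, q w = gaussianPDFReal m.1 v w.1 * gaussianPDFReal m.2 v w.2 := by
  have hA : A < 0 := by
    by_contra hA
    have hA' : 0 ≤ A := not_lt.1 hA
    have hle : ∀ w : ℝ × ℝ, ENNReal.ofReal (Real.exp γ) ≤
        ENNReal.ofReal (q w) + ENNReal.ofReal (q (-w)) := by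
      rintro ⟨x, y⟩
      have hxy : 0 ≤ A * (x ^ 2 + y ^ 2) := by positivity
      rcases le_total 0 (β₁ * x + β₂ * y) with h | h
      · refine le_add_right (ENNReal.ofReal_le_ofReal ?_)
        rw [hq]
        exact Real.exp_le_exp.2 (by linarith)
      · refine le_add_left (ENNReal.ofReal_le_ofReal ?_)
        rw [Prod.neg_mk, hq]
        exact Real.exp_le_exp.2 (by nlinarith)
    have h2 := lintegral_mono (μ := (volume : Measure (ℝ × ℝ))) hle
    rw [lintegral_add_left hm.ennreal_ofReal,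
      lintegral_neg_eq_self (fun w => ENNReal.ofReal (q w)), h1, lintegral_const] at h2
    have h3 : (volume : Measure (ℝ × ℝ)) Set.univ = ∞ := by
      rw [Measure.volume_eq_prod, ← Set.univ_prod_univ, Measure.prod_prod]
      simp
    rw [h3, ENNReal.mul_top (by simp [Real.exp_pos])] at h2
    simp at h2
  have hv : 0 < -1 / (2 * A) := div_pos_of_neg_of_neg (by norm_num) (by linarith)
  set v : ℝ≥0 := ⟨-1 / (2 * A), hv.le⟩ with hvdef
  have hvc : (v : ℝ) = -1 / (2 * A) := rfl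
  have hv0 : v ≠ 0 := by
    intro h
    rw [h] at hvc
    simp only [NNReal.coe_zero] at hvc
    linarith
  set m : ℝ × ℝ := (-β₁ / (2 * A), -β₂ / (2 * A)) with hmdef
  have hK := pk_pos hv0
  set C : ℝ := Real.exp (γ - A * (m.1 ^ 2 + m.2 ^ 2)) / (pk v * pk v) with hC
  have hC0 : 0 ≤ C := by positivity
  have hqC : ∀ w, q w = C * (gaussianPDFReal m.1 v w.1 * gaussianPDFReal m.2 v w.2) := by
    rintro ⟨x, y⟩
    rw [hq]
    unfold gaussianPDFReal
    change _ = C * (pk v * _ * (pk v * _))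
    rw [mul_mul_mul_comm, hC, ← mul_assoc, div_mul_cancel₀ _ (mul_pos hK hK).ne', ← Real.exp_add,
      ← Real.exp_add]
    congr 1
    simp only [hvc, hmdef]
    have := hA.ne
    field_simp
    ring
  have hC1 : C = 1 := by
    simp only [hqC, ENNReal.ofReal_mul hC0] at h1
    rw [lintegral_const_mul _ (gauss_meas m.1 m.2 v)] at h1
    have h2 : ∫⁻ w : ℝ × ℝ,
        ENNReal.ofReal (gaussianPDFReal m.1 v w.1 * gaussianPDFReal m.2 v w.2) = 1 := by
      have h3 := congrArg (fun μ : Measure (ℝ × ℝ) => μ Set.univ) (gauss_prod m.1 m.2 hv0)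
      simpa using h3.symm
    rw [h2, mul_one] at h1
    exact ENNReal.ofReal_eq_one.1 h1
  exact ⟨m, v, hv0, fun w => by rw [hqC, hC1, one_mul]⟩

lemma mom (a m : ℝ) (v : ℝ≥0) : ∫⁻ x, ENNReal.ofReal ((a + x) ^ 2) ∂(gaussianReal m v) =
    ENNReal.ofReal ((a + m) ^ 2 + v) := by
  have h2 : MemLp id 2 (gaussianReal m v) := memLp_id_gaussianReal' 2 (by simp)
  have hi : Integrable (fun x : ℝ => x) (gaussianReal m v) := h2.integrable (by simp)
  have hc : ∀ b : ℝ, Integrable (fun x : ℝ => (b + x) ^ 2) (gaussianReal m v) := fun b =>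
    ((memLp_const b).add h2).integrable_sq
  have hvar : ∫ x, (-m + x) ^ 2 ∂(gaussianReal m v) = v := by
    have h3 := variance_eq_integral (X := fun x : ℝ => x) (μ := gaussianReal m v)
      measurable_id.aemeasurable
    rw [variance_fun_id_gaussianReal, integral_id_gaussianReal] at h3
    rw [h3]
    congr 1
    ext x
    ring
  rw [← ofReal_integral_eq_lintegral_ofReal (hc a) (Eventually.of_forall fun _ => sq_nonneg _)]
  congr 1
  have : (fun x : ℝ => (a + x) ^ 2) =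
      fun x => (-m + x) ^ 2 + (2 * (a + m) * x + ((a + m) ^ 2 - 2 * (a + m) * m)) := by
    ext x
    ring
  have hi2 : Integrable (fun x : ℝ => 2 * (a + m) * x + ((a + m) ^ 2 - 2 * (a + m) * m))
      (gaussianReal m v) := (hi.const_mul _).add (integrable_const _)
  rw [this, integral_add (hc _) hi2,
    integral_add (hi.const_mul _) (integrable_const _), integral_const_mul, hvar,
    integral_id_gaussianReal]
  simp
  ring

lemma mom2 (a b m₁ m₂ : ℝ) (v : ℝ≥0) :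
    ∫⁻ w, ENNReal.ofReal ((a + w.1) ^ 2 + (b + w.2) ^ 2)
      ∂((gaussianReal m₁ v).prod (gaussianReal m₂ v)) =
    ENNReal.ofReal ((a + m₁) ^ 2 + (b + m₂) ^ 2 + 2 * v) := by
  have ha : Measurable fun x : ℝ => ENNReal.ofReal ((a + x) ^ 2) := by fun_prop
  have hb : Measurable fun x : ℝ => ENNReal.ofReal ((b + x) ^ 2) := by fun_prop
  simp only [ENNReal.ofReal_add (sq_nonneg _) (sq_nonneg _)]
  rw [lintegral_add_left (show Measurable fun w : ℝ × ℝ => ENNReal.ofReal ((a + w.1) ^ 2) from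
    ha.comp measurable_fst)]
  have h1 : ∫⁻ w, ENNReal.ofReal ((a + w.1) ^ 2)
      ∂((gaussianReal m₁ v).prod (gaussianReal m₂ v)) = ENNReal.ofReal ((a + m₁) ^ 2 + v) := by
    rw [← mom, ← lintegral_map ha measurable_fst]
    simp
  have h2 : ∫⁻ w, ENNReal.ofReal ((b + w.2) ^ 2)
      ∂((gaussianReal m₁ v).prod (gaussianReal m₂ v)) = ENNReal.ofReal ((b + m₂) ^ 2 + v) := by
    rw [← mom, ← lintegral_map hb measurable_snd]
    simp
  rw [h1, h2, ← ENNReal.ofReal_add (by positivity) (by positivity)]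
  congr 1
  ring

lemma scheffe (Qn : ℕ → ℝ × ℝ → ℝ≥0∞) (Q : ℝ × ℝ → ℝ≥0∞) (hn : ∀ n, Measurable (Qn n))
    (hQ : Measurable Q) (h1n : ∀ n, ∫⁻ w, Qn n w = 1) (h1 : ∫⁻ w, Q w = 1)
    (hfin : ∀ w, Q w ≠ ∞) (lim : ∀ w, Tendsto (fun n => Qn n w) atTop (𝓝 (Q w))) :
    Tendsto (fun n => ∫⁻ w, (Qn n w - Q w)) atTop (𝓝 0) := by
  have e : ∀ n, ∫⁻ w, (Qn n w - Q w) = ∫⁻ w, (Q w - Qn n w) := by
    intro n
    have h2 : ∫⁻ w, (Q w + (Qn n w - Q w)) = ∫⁻ w, (Qn n w + (Q w - Qn n w)) := by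
      congr 1
      ext w
      rw [add_tsub_eq_max, add_tsub_eq_max, max_comm]
    rw [lintegral_add_left hQ, lintegral_add_left (hn n), h1, h1n] at h2
    exact (ENNReal.add_right_inj ENNReal.one_ne_top).1 h2
  simp only [e]
  have := tendsto_lintegral_of_dominated_convergence (μ := (volume : Measure (ℝ × ℝ)))
    (F := fun n w => Q w - Qn n w) (f := fun _ => 0) Q (fun n => hQ.sub (hn n))
    (fun n => Eventually.of_forall fun w => tsub_le_self) (by rw [h1]; simp)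
    (Eventually.of_forall fun w => by
      have := ENNReal.Tendsto.sub (tendsto_const_nhds (x := Q w)) (lim w) (Or.inl (hfin w))
      simpa using this)
  simpa using this

lemma tight (M₀ : ℝ≥0) (S : Set (ProbabilityMeasure (ℝ × ℝ)))
    (hS : ∀ π ∈ S, ∫⁻ u, ENNReal.ofReal (u.1 ^ 2 + u.2 ^ 2) ∂(π : Measure (ℝ × ℝ)) ≤ M₀) :
    IsTightMeasureSet {((μ : ProbabilityMeasure (ℝ × ℝ)) : Measure (ℝ × ℝ)) | μ ∈ S} := by
  rw [isTightMeasureSet_iff_exists_isCompact_measure_compl_le]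
  intro ε hε
  obtain ⟨n, hn⟩ : ∃ n : ℕ, (M₀ : ℝ≥0∞) / (n + 1 : ℕ) ≤ ε := by
    have h1 : Tendsto (fun n : ℕ => (M₀ : ℝ≥0∞) / (n + 1 : ℕ)) atTop (𝓝 0) := by
      have := ENNReal.Tendsto.const_mul (a := (M₀ : ℝ≥0∞))
        (ENNReal.tendsto_inv_nat_nhds_zero.comp (tendsto_add_atTop_nat 1))
        (Or.inr ENNReal.coe_ne_top)
      simpa [div_eq_mul_inv] using this
    exact (h1.eventually (ge_mem_nhds hε)).exists
  refine ⟨Metric.closedBall 0 (n + 1 : ℕ), isCompact_closedBall _ _, ?_⟩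
  rintro _ ⟨π, hπ, rfl⟩
  have hm : Measurable fun u : ℝ × ℝ => ENNReal.ofReal (u.1 ^ 2 + u.2 ^ 2) := by fun_prop
  refine le_trans (measure_mono ?_) ((meas_ge_le_lintegral_div hm.aemeasurable
    (ε := ((n + 1 : ℕ) : ℝ≥0∞)) (by simp) (by simp)).trans
    ((ENNReal.div_le_div_right (hS π hπ) _).trans hn))
  intro u hu
  simp only [Set.mem_compl_iff, mem_closedBall_zero_iff, not_le] at hu
  simp only [Set.mem_ofPred_eq]
  rw [← ENNReal.ofReal_natCast]
  refine ENNReal.ofReal_le_ofReal ?_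
  have h1 : (1 : ℝ) ≤ ((n + 1 : ℕ) : ℝ) := by exact_mod_cast Nat.succ_le_succ (Nat.zero_le n)
  rw [Prod.norm_def, lt_max_iff, Real.norm_eq_abs, Real.norm_eq_abs] at hu
  rcases hu with hu | hu
  · nlinarith [sq_abs u.1, sq_nonneg u.2]
  · nlinarith [sq_abs u.2, sq_nonneg u.1]

end Pool.Agent.MP_2b113a_an.H50
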